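import Pool.Agent.V8.Defs
import Pool.Agent.V7.Bridge
import Pool.Agent.H51.TB.UPt
import Pool.Agent.H18.Ex.Multi

/-!
# V8: points of arbitrary multiplicities at coordinate points, and the system of the level `0`

`BxJ d J`: the exponents `b` at `K` variables with `b i + J i ≤ d`.  For points of the multiplicities
`J i` at the coordinate points of these variables the forms of degree `d` have exactly the exponents of
this kind.
-/

set_option autoImplicit false

namespace Pool.Agent.V8

open Finset MvPolynomial Pool.Agent.H51.TB Pool.Agent.H54.V7 Pool.Agent.V7 Pool.Agent.V7.ST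
open Pool.Agent.H18.Ex (tcr Kind ell ell_mono ell_pos GM GM_iff multi_exists_fin GI InjAt Sat)
open Pool.Agent.H21.NX (Sx mem_Sx)

/-- The exponents `b` with `b i + J i ≤ d`. -/
def BxJ (d : ℕ) {K : ℕ} (J : Fin K → ℕ) : Finset (Fin K → ℕ) :=
  Fintype.piFinset fun i => range (d + 1 - J i)

theorem mem_BxJ {d K : ℕ} {J : Fin K → ℕ} {b : Fin K → ℕ} (hJ : ∀ i, J i ≤ d) :
    b ∈ BxJ d J ↔ ∀ i, b i + J i ≤ d := by
  unfold BxJ
  rw [Fintype.mem_piFinset]
  refine forall_congr' fun i => ?_
  have := hJ i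
  rw [mem_range]
  omega

theorem dn_BxJ {d K : ℕ} {J : Fin K → ℕ} (hJ : ∀ i, J i ≤ d) : Dn (BxJ d J) where
  zero := by
    rw [mem_BxJ hJ]
    intro i
    have := hJ i
    omega
  dn := by
    intro b hb b' h
    rw [mem_BxJ hJ] at hb ⊢
    intro i
    have := hb i
    have := h i
    omega

/-- The number of the exponents of degree `k` in `n` variables with `b + J ≤ d` at `K` variables. -/
def NJ (d : ℕ) {K : ℕ} (J : Fin K → ℕ) (n k : ℕ) : ℕ :=
  ∑ b ∈ (BxJ d J).filter (fun b => ∑ i, b i ≤ k), Nat.multichoose (n - K) (k - ∑ i, b i)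

theorem bJ_BxJ (d : ℕ) {K : ℕ} (J : Fin K → ℕ) (c k n : ℕ) : bJ (BxJ d J) c k 0 n = NJ d J n k :=
  rfl

private theorem Bridge_tcr_eq {ι : Type} [Fintype ι] [DecidableEq ι] (o : ι) (a : ι → ℕ) :
    tcr (fun i => if i = o then (1 : ℂ) else 0) a (Function.update a o 0) = 1 := by
  unfold tcr
  refine prod_eq_one fun i _ => ?_
  beta_reduce
  by_cases hi : i = o
  · subst hi
    rw [Function.update_self, if_pos rfl, Nat.choose_zero_right, one_pow, Nat.cast_one, one_mul]
  · rw [Function.update_of_ne hi, if_neg hi, Nat.choose_self, Nat.sub_self, pow_zero, Nat.cast_one,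
      one_mul]

private theorem Bridge_tcr_zero {ι : Type} [Fintype ι] [DecidableEq ι] (o : ι) (a c : ι → ℕ)
    (h : ∑ i, a i = ∑ i, c i) (hne : c ≠ a) :
    tcr (fun i => if i = o then (1 : ℂ) else 0) c (Function.update a o 0) = 0 := by
  by_contra h00
  apply hne
  unfold tcr at h00
  have h0 := prod_ne_zero_iff.1 h00
  have h1 : ∀ i, i ≠ o → c i = a i := by
    intro i hi
    have h2 := h0 i (mem_univ i)
    beta_reduce at h2
    rw [Function.update_of_ne hi, if_neg hi] at h2
    have h3 : ((c i).choose (a i) : ℂ) ≠ 0 := left_ne_zero_of_mul h2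
    have h4 : (0 : ℂ) ^ (c i - a i) ≠ 0 := right_ne_zero_of_mul h2
    have h5 : a i ≤ c i := by
      by_contra h6
      apply h3
      rw [Nat.choose_eq_zero_of_lt (by omega), Nat.cast_zero]
    have h7 : c i - a i = 0 := by
      by_contra h8
      exact h4 (zero_pow h8)
    omega
  have h9 : c o = a o := by
    have e1 := Finset.add_sum_erase univ a (mem_univ o)
    have e2 := Finset.add_sum_erase univ c (mem_univ o)
    have e3 : ∑ i ∈ univ.erase o, c i = ∑ i ∈ univ.erase o, a i :=
      sum_congr rfl fun i hi => h1 i (ne_of_mem_erase hi)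
    omega
  funext i
  by_cases hi : i = o
  · rw [hi]; exact h9
  · exact h1 i hi

/-- A point of multiplicity `M` at a coordinate point. -/
theorem GM_consA {ι : Type} [Fintype ι] [DecidableEq ι] (o : ι) (d M : ℕ) (A : Finset (ι → ℕ))
    (hA0 : A ⊆ Sx ι d) (S : Multiset (Kind ι))
    (h : GM (A.filter fun α => α o + M ≤ d) S) : GM A (Kind.free M ::ₘ S) := by
  obtain ⟨n, k, rfl, pos, hpos⟩ := h
  refine ⟨n + 1, Fin.cons (Kind.free M) k, ?_,
    Fin.cons (fun i => if i = o then (1 : ℂ) else 0) pos, ?_⟩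
  · rw [Fin.univ_val_map, Fin.univ_val_map, List.ofFn_cons]
    rfl
  · intro f hf
    have hz : ∀ a ∈ A, d < a o + M → f a = 0 := by
      intro a ha hao
      have h1 := hf 0 (Function.update a o 0)
      rw [Fin.cons_zero, Fin.cons_zero] at h1
      have ha' := mem_Sx.1 (hA0 ha)
      have h2 : ∑ i, Function.update a o 0 i < M := by
        have e1 := Finset.add_sum_erase univ a (mem_univ o)
        have e2 := Finset.add_sum_erase univ (Function.update a o 0) (mem_univ o)
        have e3 : ∑ i ∈ univ.erase o, Function.update a o 0 i = ∑ i ∈ univ.erase o, a i :=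
          sum_congr rfl fun i hi => Function.update_of_ne (ne_of_mem_erase hi) _ _
        rw [Function.update_self] at e2
        omega
      have h3 := h1 h2
      rw [sum_eq_single a] at h3
      · have h4 : (Kind.free M : Kind ι).pt (fun i => if i = o then (1 : ℂ) else 0) =
            fun i => if i = o then (1 : ℂ) else 0 := rfl
        rw [h4, Bridge_tcr_eq, mul_one] at h3
        exact h3
      · intro c hc hca
        have h4 : (Kind.free M : Kind ι).pt (fun i => if i = o then (1 : ℂ) else 0) =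
            fun i => if i = o then (1 : ℂ) else 0 := rfl
        rw [h4, Bridge_tcr_zero o a c (by rw [ha', mem_Sx.1 (hA0 hc)]) hca, mul_zero]
      · intro hn
        exact absurd ha hn
    have hA : ∀ a ∈ A.filter fun α => α o + M ≤ d, f a = 0 := by
      refine hpos f fun j b hb => ?_
      have h1 := hf j.succ b
      rw [Fin.cons_succ, Fin.cons_succ] at h1
      rw [← h1 hb]
      refine sum_subset (filter_subset _ _) fun a ha hna => ?_
      rw [mem_filter, not_and] at hna
      rw [hz a ha (by have := hna ha; omega), zero_mul]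
    intro a ha
    by_cases hao : a o + M ≤ d
    · exact hA a (mem_filter.2 ⟨ha, hao⟩)
    · exact hz a ha (by omega)

/-- Points of the multiplicities `J i` at coordinate points. -/
theorem GM_consJ {ι : Type} [Fintype ι] [DecidableEq ι] (d : ℕ) : ∀ (K : ℕ) (o : Fin K → ι)
    (J : Fin K → ℕ) (A : Finset (ι → ℕ)), A ⊆ Sx ι d → ∀ S : Multiset (Kind ι),
    GM (A.filter fun α => ∀ i, α (o i) + J i ≤ d) S →
    GM A (((univ : Finset (Fin K)).val.map J).map Kind.free + S) := by
  intro K
  induction K with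
  | zero =>
    intro o J A hA S h
    have h1 : (A.filter fun α => ∀ i : Fin 0, α (o i) + J i ≤ d) = A :=
      Finset.filter_true_of_mem fun α _ i => i.elim0
    rw [h1] at h
    simpa using h
  | succ K ih =>
    intro o J A hA S h
    have h1 := ih (fun i => o i.succ) (fun i => J i.succ)
      (A.filter fun α => α (o 0) + J 0 ≤ d) ((filter_subset _ _).trans hA) S (by
        rw [Finset.filter_filter]
        convert h using 3
        rw [Fin.forall_fin_succ])
    have h2 := GM_consA (o 0) d (J 0) A hA _ h1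
    have h3 : ((univ : Finset (Fin (K + 1))).val.map J).map Kind.free + S =
        Kind.free (J 0) ::ₘ
          ((((univ : Finset (Fin K)).val.map fun i => J i.succ).map Kind.free) + S) := by
      rw [Fin.univ_val_map, Fin.univ_val_map, List.ofFn_succ, ← Multiset.cons_coe,
        Multiset.map_cons, Multiset.cons_add]
    rw [h3]
    exact h2

/-- From the system of the level `0`. -/
theorem GM_of_gM {K : ℕ} (M c n : ℕ) (J : Fin K → ℕ) (hJ : ∀ i, J i ≤ 2 * M - 1) (hn : K < n)
    (S : Multiset ℕ)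
    (h : gM (LSB (BxJ (2 * M - 1) J) M c n 0) (S.map fun m => Kd.ord m ∅) = 0) :
    GM (Sx (Fin n) (2 * M - 1))
      (((univ : Finset (Fin K)).val.map J).map Kind.free + S.map Kind.free) := by
  classical
  obtain ⟨o, ho⟩ : ∃ o : Fin K → Fin n, o = fun i => ⟨n - 1 - i.1, by omega⟩ := ⟨_, rfl⟩
  refine GM_consJ (2 * M - 1) K o J (Sx (Fin n) (2 * M - 1)) (Finset.Subset.refl _) _ ?_
  obtain ⟨A, hA⟩ : ∃ A, A = (Sx (Fin n) (2 * M - 1)).filter fun α => ∀ i, α (o i) + J i ≤ 2 * M - 1 :=
    ⟨_, rfl⟩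
  have hA' : A = ExB (BxJ (2 * M - 1) J) c n (2 * M - 1) 0 := by
    rw [hA]
    ext a
    rw [mem_filter, mem_ExB, critA_mem_Ex, mem_BxJ hJ, mem_Sx]
    refine and_congr_right fun _ => forall_congr' fun i => ?_
    unfold jx
    rw [ho, dif_pos (show i.1 < n by omega)]
  rw [← hA, hA']
  obtain ⟨k, m, rfl⟩ := multi_exists_fin S
  rw [Multiset.map_map, GM_iff]
  rw [Multiset.map_map] at h
  have h0 : (LSB (BxJ (2 * M - 1) J) M c n 0).gd (fun i => Kd.ord (m i) ∅) = 0 := by
    rw [gd_eq_gM]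
    exact h
  obtain ⟨p, hp⟩ := gd_attained (LSB (BxJ (2 * M - 1) J) M c n 0) fun i => Kd.ord (m i) ∅
  rw [h0] at hp
  have hbot : (LSB (BxJ (2 * M - 1) J) M c n 0).V (fun i => Kd.ord (m i) ∅) p = ⊥ :=
    Submodule.finrank_eq_zero.1 hp
  refine ⟨fun i s => p i (Sum.inl s), fun f hf a ha => ?_⟩
  have h1 : (fun e : {a // a ∈ ExB (BxJ (2 * M - 1) J) c n (2 * M - 1) 0} => f e.1) ∈
      (LSB (BxJ (2 * M - 1) J) M c n 0).V (fun i => Kd.ord (m i) ∅) p := by
    rw [mem_LSA]
    intro i b hb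
    have h2 := hf i b hb
    have h3 : msk (blk c n) ∅ (fun s => p i (Sum.inl s)) = fun s => p i (Sum.inl s) := by
      funext s
      simp [msk]
    rw [h3]
    show ∑ e : {a // a ∈ ExB (BxJ (2 * M - 1) J) c n (2 * M - 1) 0},
      f e.1 * tcr (fun s => p i (Sum.inl s)) e.1 b = 0
    rw [Finset.sum_coe_sort (ExB (BxJ (2 * M - 1) J) c n (2 * M - 1) 0)
      fun e => f e * tcr (fun s => p i (Sum.inl s)) e b]
    exact h2
  rw [hbot, Submodule.mem_bot] at h1
  exact congrFun h1 ⟨a, ha⟩

private theorem Bridge_count (S : Multiset ℕ) (μ : ℕ) :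
    (S.map fun m => Kd.ord m ∅).count (Kd.ord μ ∅) = S.count μ := by
  rw [Multiset.count_map_eq_count' (fun m : ℕ => Kd.ord m ∅) S
    (fun a b h => (Kd.ord.inj h).1) μ]

private theorem Bridge_sum_count (S : Multiset ℕ) (f : ℕ → ℕ) (μ : ℕ) (P : ℕ → Prop)
    [DecidablePred P] (hμ : P μ) : S.count μ * f μ ≤ ((S.filter P).map f).sum := by
  have h1 : Multiset.replicate (S.count μ) μ ≤ S.filter P := by
    rw [Multiset.le_filter]
    refine ⟨Multiset.le_count_iff_replicate_le.1 le_rfl, fun a ha => ?_⟩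
    rw [Multiset.eq_of_mem_replicate ha]
    exact hμ
  obtain ⟨T, hT⟩ := Multiset.le_iff_exists_add.1 h1
  rw [hT, Multiset.map_add, Multiset.sum_add, Multiset.map_replicate, Multiset.sum_replicate,
    smul_eq_mul]
  exact Nat.le_add_right _ _

/-- The critical half for the points of the multiplicities `J`. -/
theorem critJ_of (M c : ℕ) (hM : 1 ≤ M) {K : ℕ} (J : Fin K → ℕ) (hJ : ∀ i, J i ≤ 2 * M - 1)
    (h : PROPB (BxJ (2 * M - 1) J) M c 0) :
    ∃ ε : ℝ, 0 < ε ∧ ∃ r₀ : ℕ, ∀ r, r₀ ≤ r → ∀ S : Multiset ℕ, (∀ m ∈ S, 1 ≤ m ∧ m ≤ M) →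
      |((S.count M * ell r M : ℕ) : ℝ) - ((2 * M - 1 + r).choose r : ℝ)| ≤
        ε * ((2 * M - 1 + r).choose r : ℝ) →
      ((((S.filter fun m => m < M).map (ell r)).sum : ℕ) : ℝ) ≤
        ε * ((2 * M - 1 + r).choose r : ℝ) →
      NJ (2 * M - 1) J (r + 1) (2 * M - 1) ≤
        (S.map fun m => NJ (2 * M - 1) J (r + 1) (m - 1)).sum →
      GM (Sx (Fin (r + 1)) (2 * M - 1))
        (((univ : Finset (Fin K)).val.map J).map Kind.free + S.map Kind.free) := by
  classical
  obtain ⟨e, he, n₀, hP⟩ := h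
  obtain ⟨ε₁, hε₁, r₁, h₁⟩ := critB_top M (by omega) e he
  obtain ⟨ε₂, hε₂, h₂⟩ := critB_sml M (by omega) e he
  refine ⟨min ε₁ ε₂, lt_min hε₁ hε₂, r₁ + n₀ + 2 * M + K + 1, fun r hr S hS htop hsml hkill => ?_⟩
  have hNnn : (0 : ℝ) ≤ ((2 * M - 1 + r).choose r : ℝ) := Nat.cast_nonneg _
  have hm1 : min ε₁ ε₂ ≤ ε₁ := min_le_left _ _
  have hm2 : min ε₁ ε₂ ≤ ε₂ := min_le_right _ _
  obtain ⟨s, hs⟩ : ∃ s : Multiset Kd, s = S.map fun m => Kd.ord m ∅ := ⟨_, rfl⟩
  have hcls : Cls M c 0 (r + 1) e (fun τ => s.count τ) := by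
    refine ⟨⟨?_, ?_, ?_, ?_⟩, ?_⟩
    · intro τ hτ
      have h3 : τ ∈ s := by
        by_contra h3
        exact hτ (Multiset.count_eq_zero_of_notMem h3)
      rw [hs] at h3
      obtain ⟨m, hm, hi⟩ := Multiset.mem_map.1 h3
      rw [mem_kds, ← hi]
      exact ⟨(hS m hm).1, (hS m hm).2, Finset.empty_subset _⟩
    · intro I hI hI'
      rw [Finset.range_zero, Finset.subset_empty] at hI
      exact absurd (hI.trans Finset.range_zero.symm) hI'
    · intro i hi
      exact absurd hi (Nat.not_lt_zero i)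
    · intro μ hμ1 hμM I hI
      rw [Finset.range_zero, Finset.subset_empty] at hI
      subst hI
      have h3 := h₂ r (by omega) μ hμ1 hμM (S.count μ) (by
        refine le_trans ?_ (hsml.trans (mul_le_mul_of_nonneg_right hm2 hNnn))
        exact_mod_cast Bridge_sum_count S (ell r) μ (fun m => m < M) hμM)
      rw [hs, Bridge_count]
      simpa using h3
    · have h3 := h₁ r (by omega) (S.count M)
        (htop.trans (mul_le_mul_of_nonneg_right hm1 hNnn))
      rw [Finset.range_zero, hs, Bridge_count]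
      have h4 : nom M c 0 ∅ = 1 / (((2 * M - 1).choose M : ℝ) * (M.factorial : ℝ)) := by
        unfold nom
        simp
      rw [h4]
      exact h3
  have h3 := hP (r + 1) (by omega) s hcls
  have h5 : vdW M (bJ (BxJ (2 * M - 1) J) c) 0 (r + 1) s ≤ 0 := by
    unfold vdW
    have h7 : (s.map (wtW M (bJ (BxJ (2 * M - 1) J) c) (r + 1))).sum =
        (S.map fun m => NJ (2 * M - 1) J (r + 1) (m - 1)).sum := by
      rw [hs, Multiset.map_map]
      rfl
    rw [h7, bJ_BxJ]
    omega
  refine GM_of_gM M c (r + 1) J hJ (by omega) S ?_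
  rw [← hs]
  have h6 : max 0 (vdW M (bJ (BxJ (2 * M - 1) J) c) 0 (r + 1) s) = 0 := max_eq_left h5
  rw [h6] at h3
  omega

end Pool.Agent.V8
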