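import Pool.Agent.V8.Defs
import Pool.Agent.V7.F1

/-!
# V8: the dimension is at least the virtual dimension (bounded exponents)

As `Pool.Agent.V7.F1`: the Taylor coefficients which do not satisfy the bounds at the last `K` variables vanish
identically, since the set of the bounded exponents is closed downwards.
-/

set_option autoImplicit false
set_option linter.unusedSectionVars false

namespace Pool.Agent.V8

open Finset MvPolynomial Pool.Agent.H51.TB Pool.Agent.H54.V7 Pool.Agent.V7 Pool.Agent.V7.ST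
open Pool.Agent.H18.Ex

/-! ### Conditions with exponents in a set closed downwards -/

section

variable {ι : Type} [Fintype ι] [DecidableEq ι] {κ : Type} [DecidableEq κ] {E : Type} [Fintype E]
  (ex : E → ι → ℕ)

/-- A Taylor coefficient with a forbidden index. -/
theorem TC_out (G : (ι → ℕ) → Prop) (hG : ∀ a b : ι → ℕ, (∀ i, a i ≤ b i) → G b → G a)
    (hE : ∀ e, G (ex e)) (f : E → ℂ) (p : ι → ℂ) (b : ι → ℕ) (hb : ¬ G b) : TC ex f p b = 0 := by
  unfold TC
  refine sum_eq_zero fun e _ => ?_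
  rw [tcr_eq_zero _ _ _ fun h => hb (hG _ _ h (hE e)), mul_zero]

/-- A swapped condition with a forbidden index. -/
theorem SC_out (G : (ι → ℕ) → Prop) (hG : ∀ a b : ι → ℕ, (∀ i, a i ≤ b i) → G b → G a)
    (hE : ∀ e, G (ex e)) (N m : ℕ) (f : E → ℂ) (p v : ι → ℂ) (a : ι → ℕ) (ha : ¬ G a) :
    SC ex N m f p v a = 0 := by
  unfold SC
  refine sum_eq_zero fun b _ => ?_
  by_cases h : ∀ i, a i ≤ b i
  · rw [TC_out ex G hG hE f p b fun hb => ha (hG _ _ h hb), mul_zero]
  · rw [tcr_eq_zero _ _ _ h, zero_mul]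

/-- The vanishing to order `M` follows from the Taylor coefficients of order `M - 1` which meet the blocks
of `I` and satisfy `G`. -/
theorem fat_of_msetG (G : (ι → ℕ) → Prop) (hG : ∀ a b : ι → ℕ, (∀ i, a i ≤ b i) → G b → G a)
    (hGE : ∀ e, G (ex e)) (d M : ℕ) (hM : 1 ≤ M) (hMd : M ≤ d) (hE : ∀ e, ∑ i, ex e i = d)
    (blk : κ → Finset ι) (I : Finset κ) (hI : ∀ k ∈ I, ∀ e, ¬ ∀ x ∈ blk k, ex e x = 0)
    (p : ι → ℂ) (hp : ∀ k ∈ I, ∀ x ∈ blk k, p x = 0) (f : E → ℂ)
    (h : ∀ b ∈ mset blk univ I (M - 1), G b → TC ex f p b = 0) : Fat ex M p f :=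
  fat_of_mset ex d M hM hMd hE blk I hI p hp f fun b hb => by
    by_cases h1 : G b
    · exact h b hb h1
    · exact TC_out ex G hG hGE f p b h1

/-- The number of conditions of an ordinary point. -/
theorem fat_cardG (G : (ι → ℕ) → Prop) [DecidablePred G]
    (hG : ∀ a b : ι → ℕ, (∀ i, a i ≤ b i) → G b → G a)
    (hGE : ∀ e, G (ex e)) (d M : ℕ) (hM : 1 ≤ M) (hMd : M ≤ d) (hE : ∀ e, ∑ i, ex e i = d)
    (blk : κ → Finset ι) (I : Finset κ) (hI : ∀ k ∈ I, ∀ e, ¬ ∀ x ∈ blk k, ex e x = 0)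
    (p : ι → ℂ) (hp : ∀ k ∈ I, ∀ x ∈ blk k, p x = 0) (V V' : Submodule ℂ (E → ℂ))
    (h : ∀ f ∈ V, Fat ex M p f → f ∈ V') :
    Module.finrank ℂ V ≤ Module.finrank ℂ V' + ((mset blk univ I (M - 1)).filter G).card :=
  finrank_le_add V V' ((mset blk univ I (M - 1)).filter G) (fun b e => tcr p (ex e) b) (by
    intro f hf h2
    refine h f hf (fat_of_msetG ex G hG hGE d M hM hMd hE blk I hI p hp f fun b hb hb' => ?_)
    rw [← tc_sum]
    exact h2 b (mem_filter.2 ⟨hb, hb'⟩))

/-- The number of conditions of a swapped point. -/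
theorem sw_cardG (G : (ι → ℕ) → Prop) [DecidablePred G]
    (hG : ∀ a b : ι → ℕ, (∀ i, a i ≤ b i) → G b → G a)
    (hGE : ∀ e, G (ex e)) (d M N : ℕ) (hM : 1 ≤ M) (hMd : M ≤ d) (hN : d < N)
    (hE : ∀ e, ∑ i, ex e i = d)
    (blk : κ → Finset ι) (I : Finset κ) (i : κ) (hiI : i ∉ I)
    (hI : ∀ k ∈ insert i I, ∀ e, ¬ ∀ x ∈ blk k, ex e x = 0)
    (p v : ι → ℂ) (hp : ∀ k ∈ insert i I, ∀ x ∈ blk k, p x = 0)
    (hv : ∀ k ∈ I, ∀ x ∈ blk k, v x = 0) (s₀ : ι) (hs₀ : ∀ k ∈ insert i I, s₀ ∉ blk k)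
    (hGs : ∀ (a : ι → ℕ) (x : ℕ), G a → G (Function.update a s₀ x)) (hG0 : G 0)
    (hps : p s₀ ≠ 0) (V V' : Submodule ℂ (E → ℂ))
    (h : ∀ f ∈ V, Fat ex M p f → Sw ex M N (blk i) p v f → f ∈ V') :
    Module.finrank ℂ V ≤ Module.finrank ℂ V' +
      (((mset blk univ I (M - 1)).filter G).card - if I = ∅ then 1 else 0) := by
  classical
  have hii : i ∈ insert i I := mem_insert_self i I
  set T : Finset (ι → ℕ) := (mset blk (univ \ blk i) I (M - 1)).filter G with hT
  have hIne : ∀ a : ι → ℕ, a ∈ T ↔ ((∑ x, a x = M - 1 ∧ ∀ x ∈ blk i, a x = 0) ∧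
      ∀ k ∈ I, ¬ ∀ x ∈ blk k, a x = 0) ∧ G a := by
    intro a
    rw [hT, mem_filter, mem_mset]
    constructor
    · rintro ⟨⟨⟨h1, h2⟩, h3⟩, h0⟩
      refine ⟨⟨⟨h1, fun x hx => ?_⟩, h3⟩, h0⟩
      by_contra h4
      exact (mem_sdiff.1 (h2 x h4)).2 hx
    · rintro ⟨⟨⟨h1, h2⟩, h3⟩, h0⟩
      refine ⟨⟨⟨h1, fun x hx => ?_⟩, h3⟩, h0⟩
      rw [mem_sdiff]
      exact ⟨mem_univ x, fun h4 => hx (h2 x h4)⟩
  have hsing : Pi.single s₀ (M - 1) = Function.update (0 : ι → ℕ) s₀ (M - 1) := rfl
  set T' : Finset (ι → ℕ) := if I = ∅ then T.erase (Pi.single s₀ (M - 1)) else T with hT'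
  have hmemT : I = ∅ → Pi.single s₀ (M - 1) ∈ T := by
    intro h1
    rw [hIne]
    refine ⟨⟨⟨?_, fun x hx => ?_⟩, fun k hk => ?_⟩, ?_⟩
    · rw [sum_pi_single']
      simp
    · have h2 : x ≠ s₀ := fun h3 => hs₀ i hii (h3 ▸ hx)
      rw [Pi.single_eq_of_ne h2]
    · rw [h1] at hk
      exact absurd hk (notMem_empty k)
    · rw [hsing]
      exact hGs _ _ hG0
  have hcardT' : T'.card = T.card - if I = ∅ then 1 else 0 := by
    rw [hT']
    split_ifs with h1
    · exact card_erase_of_mem (hmemT h1)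
    · rfl
  have h1 := finrank_le_add V V' (((mset blk univ (insert i I) (M - 1)).filter G).disjSum T')
    (Sum.elim (fun b e => tcr p (ex e) b) fun a e => swc ex N M p v (Function.update a s₀ 0) e) (by
    intro f hf h2
    have hfat : Fat ex M p f :=
      fat_of_msetG ex G hG hGE d M hM hMd hE blk (insert i I) hI p hp f fun b hb hb' => by
        rw [← tc_sum]
        exact h2 (Sum.inl b) (inl_mem_disjSum.2 (mem_filter.2 ⟨hb, hb'⟩))
    refine h f hf hfat ?_
    rw [sw_iff]
    intro a ha h3 h4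
    rcases Nat.lt_or_ge (∑ x, a x) M with h5 | h5
    · refine SC_reduce ex d N M hE hN hMd f p v (blk i) (hp i hii) s₀ (hs₀ i hii) hps
        ((fat_iff ex M p f).1 hfat) ?_ a ha h3 h5
      clear ha h3 h4 h5 a
      intro a ha h6 h3 h5
      by_cases hGa : G a
      swap
      · exact SC_out ex G hG hGE N M f p v a hGa
      by_cases h7 : ∀ k ∈ I, ¬ ∀ x ∈ blk k, a x = 0
      · set a' : ι → ℕ := Function.update a s₀ (M - 1 - ∑ x, a x) with ha'
        have h8 : ∑ x, a' x = M - 1 := by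
          rw [ha', ← add_sum_erase univ _ (mem_univ s₀), Function.update_self]
          have h9 : ∑ x ∈ univ.erase s₀, Function.update a s₀ (M - 1 - ∑ x, a x) x = ∑ x, a x := by
            rw [← add_sum_erase univ a (mem_univ s₀), h6, zero_add]
            exact sum_congr rfl fun x hx => by rw [Function.update_of_ne (ne_of_mem_erase hx)]
          rw [h9]
          omega
        have h9 : a' ∈ T := by
          rw [hIne]
          refine ⟨⟨⟨h8, fun x hx => ?_⟩, fun k hk h10 => h7 k hk fun x hx => ?_⟩, ?_⟩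
          · have h2 : x ≠ s₀ := fun h3 => hs₀ i hii (h3 ▸ hx)
            rw [ha', Function.update_of_ne h2]
            exact ha x hx
          · have h2 : x ≠ s₀ := fun h3 => hs₀ k (mem_insert_of_mem hk) (h3 ▸ hx)
            have h11 := h10 x hx
            rwa [ha', Function.update_of_ne h2] at h11
          · rw [ha']
            exact hGs _ _ hGa
        have h10 : Function.update a' s₀ 0 = a := by
          rw [ha', Function.update_idem, ← h6, Function.update_eq_self]
        have h11 : a' ∈ T' := by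
          rw [hT']
          split_ifs with h12
          · refine mem_erase.2 ⟨?_, h9⟩
            intro h13
            rw [h13] at h10
            have h14 : a = 0 := by
              rw [← h10]
              funext x
              by_cases hx : x = s₀
              · subst hx
                rw [Function.update_self]
                rfl
              · rw [Function.update_of_ne hx, Pi.single_eq_of_ne hx]
                rfl
            rw [h14] at h3
            simp at h3
          · exact h9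
        have h12 := h2 (Sum.inr a') (inr_mem_disjSum.2 h11)
        have h13 : ∑ e, swc ex N M p v (Function.update a' s₀ 0) e * f e = 0 := h12
        rw [h10, swc_sum] at h13
        exact h13
      · push Not at h7
        obtain ⟨k, hk, h7⟩ := h7
        exact SC_miss ex N M (blk k) (hI k (mem_insert_of_mem hk)) f p v
          (hp k (mem_insert_of_mem hk)) (hv k hk) a h7
    · exact SC_top ex N M f p v a (by omega)
        (TC_miss ex (blk i) (hI i hii) f p (hp i hii) a ha))
  rw [card_disjSum, hcardT'] at h1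
  have h2 : ((mset blk univ (insert i I) (M - 1)).filter G).card + T.card =
      ((mset blk univ I (M - 1)).filter G).card := by
    have h3 : (mset blk univ I (M - 1)).filter G =
        (mset blk univ (insert i I) (M - 1)).filter G ∪ T := by
      ext a
      rw [mem_union, mem_filter, mem_filter, hIne, mem_mset, mem_mset]
      constructor
      · rintro ⟨⟨⟨h3, h4⟩, h5⟩, h6⟩
        by_cases h7 : ∀ x ∈ blk i, a x = 0
        · exact Or.inr ⟨⟨⟨h3, h7⟩, h5⟩, h6⟩
        · left
          refine ⟨⟨⟨h3, h4⟩, fun k hk => ?_⟩, h6⟩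
          rcases mem_insert.1 hk with h8 | h8
          · rw [h8]
            exact h7
          · exact h5 k h8
      · rintro (⟨⟨⟨h3, h4⟩, h5⟩, h6⟩ | ⟨⟨⟨h3, h4⟩, h5⟩, h6⟩)
        · exact ⟨⟨⟨h3, h4⟩, fun k hk => h5 k (mem_insert_of_mem hk)⟩, h6⟩
        · exact ⟨⟨⟨h3, fun x _ => mem_univ x⟩, h5⟩, h6⟩
    have h4 : Disjoint ((mset blk univ (insert i I) (M - 1)).filter G) T := by
      rw [disjoint_left]
      intro a ha ha'
      rw [mem_filter, mem_mset] at ha
      exact ha.1.2 i hii ((hIne a).1 ha').1.1.2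
    rw [h3, card_union_of_disjoint h4]
  have h4 : (if I = ∅ then 1 else 0) ≤ T.card := by
    split_ifs with h5
    · exact card_pos.2 ⟨_, hmemT h5⟩
    · exact Nat.zero_le _
  omega

end

/-! ### The last variables -/

theorem jx_apply {K n : ℕ} (hK : K ≤ n) (a : Fin n → ℕ) (i : Fin K) :
    jx K n a i = a ⟨n - 1 - i.1, by omega⟩ := by
  unfold jx
  rw [dif_pos (by omega)]

theorem jx_mono {K n : ℕ} {a b : Fin n → ℕ} (h : ∀ s, a s ≤ b s) (i : Fin K) :
    jx K n a i ≤ jx K n b i := by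
  unfold jx
  split_ifs
  · exact h _
  · exact le_rfl

theorem sum_jx {K n : ℕ} (hK : K ≤ n) (a : Fin n → ℕ) :
    ∑ s ∈ univ.filter (fun s : Fin n => ¬ s.1 < n - K), a s = ∑ i, jx K n a i := by
  symm
  refine sum_bij (fun i _ => (⟨n - 1 - i.1, by omega⟩ : Fin n)) ?_ ?_ ?_ ?_
  · intro i _
    rw [mem_filter]
    refine ⟨mem_univ _, ?_⟩
    show ¬ n - 1 - i.1 < n - K
    omega
  · intro i _ i' _ h
    have h1 := congrArg Fin.val h
    have h2 : n - 1 - i.1 = n - 1 - i'.1 := h1
    exact Fin.ext (by omega)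
  · intro s hs
    rw [mem_filter] at hs
    exact ⟨⟨n - 1 - s.1, by omega⟩, mem_univ _, Fin.ext (by show n - 1 - (n - 1 - s.1) = s.1; omega)⟩
  · intro i _
    rw [jx_apply hK]

theorem sum_split {K n : ℕ} (hK : K ≤ n) (a : Fin n → ℕ) :
    ∑ s, a s = ∑ s ∈ univ.filter (fun s : Fin n => s.1 < n - K), a s + ∑ i, jx K n a i := by
  rw [← sum_jx hK, sum_filter_add_sum_filter_not]

/-- The number of the exponents which meet blocks among the first variables, with bounded exponents at the last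
variables. -/
theorem card_mset_jx {K n : ℕ} (hK : K ≤ n) (B : Finset (Fin K → ℕ)) {κ : Type} [DecidableEq κ]
    (blk : κ → Finset (Fin n)) (c s : ℕ) (I : Finset κ)
    (hS : ∀ k ∈ I, (∀ x ∈ blk k, x.1 < n - K) ∧ (blk k).card = c)
    (hd : ∀ k ∈ I, ∀ l ∈ I, k ≠ l → Disjoint (blk k) (blk l)) :
    ((mset blk univ I s).filter fun a => jx K n a ∈ B).card =
      ∑ b ∈ B.filter (fun b => ∑ i, b i ≤ s), bbc c (s - ∑ i, b i) I.card (n - K) := by
  classical
  have hmaps : ∀ a ∈ (mset blk univ I s).filter (fun a => jx K n a ∈ B),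
      jx K n a ∈ B.filter fun b => ∑ i, b i ≤ s := by
    intro a ha
    rw [mem_filter, mem_mset] at ha
    refine mem_filter.2 ⟨ha.2, ?_⟩
    have h1 := sum_split hK a
    rw [ha.1.1.1] at h1
    omega
  rw [card_eq_sum_card_fiberwise hmaps]
  refine sum_congr rfl fun b hb => ?_
  rw [mem_filter] at hb
  set S : Finset (Fin n) := univ.filter fun s : Fin n => s.1 < n - K with hSdef
  have hScard : S.card = n - K := by
    rw [hSdef, Fin.card_filter_val_lt]
    omega
  rw [← hScard, ← card_mset blk c (s - ∑ i, b i) I S (fun k hk =>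
    ⟨fun x hx => mem_filter.2 ⟨mem_univ x, (hS k hk).1 x hx⟩, (hS k hk).2⟩) hd]
  refine card_bij' (fun a _ => fun x : Fin n => if x.1 < n - K then a x else 0)
    (fun a' _ => fun x : Fin n => if h : x.1 < n - K then a' x else b ⟨n - 1 - x.1, by omega⟩)
    ?_ ?_ ?_ ?_
  · intro a ha
    rw [mem_filter, mem_filter, mem_mset] at ha
    obtain ⟨⟨⟨⟨h1, h2⟩, h3⟩, h4⟩, h5⟩ := ha
    rw [mem_mset]
    refine ⟨⟨?_, fun x hx => ?_⟩, fun k hk h6 => h3 k hk fun x hx => ?_⟩
    · rw [← sum_filter, ← hSdef]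
      have h6 := sum_split hK a
      rw [h1, h5, ← hSdef] at h6
      omega
    · rw [hSdef, mem_filter]
      refine ⟨mem_univ x, ?_⟩
      by_contra h6
      exact hx (if_neg h6)
    · have h7 := h6 x hx
      rwa [if_pos ((hS k hk).1 x hx)] at h7
  · intro a' ha'
    rw [mem_mset] at ha'
    obtain ⟨⟨h1, h2⟩, h3⟩ := ha'
    have hj : jx K n (fun x : Fin n =>
        if h : x.1 < n - K then a' x else b ⟨n - 1 - x.1, by omega⟩) = b := by
      funext i
      rw [jx_apply hK]
      have h4 : ¬ (n - 1 - i.1 < n - K) := by omega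
      show (if h : n - 1 - i.1 < n - K then _ else b ⟨n - 1 - (n - 1 - i.1), _⟩) = b i
      rw [dif_neg h4]
      congr 1
      exact Fin.ext (by show n - 1 - (n - 1 - i.1) = i.1; omega)
    rw [mem_filter, mem_filter, mem_mset]
    refine ⟨⟨⟨⟨?_, fun x _ => mem_univ x⟩, fun k hk h6 => h3 k hk fun x hx => ?_⟩, ?_⟩, hj⟩
    · rw [sum_split hK, hj]
      have h4 : ∑ x ∈ univ.filter (fun x : Fin n => x.1 < n - K),
          (if h : x.1 < n - K then a' x else b ⟨n - 1 - x.1, by omega⟩) = ∑ x, a' x := by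
        rw [← hSdef]
        rw [← sum_subset (subset_univ S) fun x _ hx => by
          by_contra h
          exact hx (h2 x h)]
        refine sum_congr rfl fun x hx => ?_
        rw [hSdef, mem_filter] at hx
        rw [dif_pos hx.2]
      rw [h4, h1]
      omega
    · have h7 := h6 x hx
      rwa [dif_pos ((hS k hk).1 x hx)] at h7
    · rw [hj]
      exact hb.1
  · intro a ha
    rw [mem_filter, mem_filter, mem_mset] at ha
    obtain ⟨⟨⟨⟨h1, h2⟩, h3⟩, h4⟩, h5⟩ := ha
    funext x
    by_cases hx : x.1 < n - K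
    · simp only [hx, dif_pos, if_true]
    · simp only [hx, dif_neg, not_false_iff]
      rw [← h5, jx_apply hK]
      congr 1
      exact Fin.ext (by show n - 1 - (n - 1 - x.1) = x.1; omega)
  · intro a' ha'
    rw [mem_mset] at ha'
    funext x
    by_cases hx : x.1 < n - K
    · simp only [hx, dif_pos, if_true]
    · simp only [hx, if_false]
      by_contra h
      have h6 := ha'.1.2 x (Ne.symm h)
      rw [hSdef, mem_filter] at h6
      exact hx h6.2

theorem bJ_eq {K : ℕ} (B : Finset (Fin K → ℕ)) (c k j n : ℕ) :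
    bJ B c k j n = ∑ b ∈ B.filter (fun b => ∑ i, b i ≤ k), bbc c (k - ∑ i, b i) j (n - K) := by
  unfold bJ
  exact sum_congr rfl fun b _ => bb_eq_bbc c _ j _

/-- The blocks below `j` lie in the first variables. -/
theorem blo_lt {K c n j : ℕ} (hc : 0 < c) (h : j * c + K ≤ n) {i : ℕ} (hi : i < j) {x : Fin n}
    (hx : x ∈ blo (blk c n) i) : x.1 < n - K := by
  have h1 : x.1 / c = i := (mem_filter.1 hx).2
  have h2 : x.1 / c < j := by omega
  have h3 := (Nat.div_lt_iff_lt_mul hc).1 h2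
  omega

theorem card_mset_blk {K : ℕ} (B : Finset (Fin K → ℕ)) {c n j : ℕ} (hc : 0 < c)
    (h : j * c + K ≤ n) {I : Finset ℕ} (hI : I ⊆ range j) (s : ℕ) :
    ((mset (blo (blk c n)) univ I s).filter fun a => jx K n a ∈ B).card =
      bJ B c s I.card n := by
  rw [bJ_eq, card_mset_jx (by omega) B (blo (blk c n)) c s I (fun k hk => ⟨fun x hx =>
    blo_lt hc h (mem_range.1 (hI hk)) hx, card_blo_blk hc ?_⟩)
    fun k _ l _ hkl => blo_disjoint _ hkl]
  have h1 : k + 1 ≤ j := mem_range.1 (hI hk)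
  exact (Nat.mul_le_mul_right c h1).trans (by omega)

/-! ### The statements -/

/-- G1. -/
theorem card_ExB {K : ℕ} (B : Finset (Fin K → ℕ)) {c n d j : ℕ} (hc : 0 < c)
    (h : j * c + K ≤ n) : (ExB B c n d j).card = bJ B c d j n := by
  have h1 : Ex (blk c n) d j = mset (blo (blk c n)) univ (range j) d := by
    ext a
    rw [mem_Ex, mem_mset]
    constructor
    · rintro ⟨h1, h2⟩
      refine ⟨⟨h1, fun x hx => mem_univ x⟩, fun i hi h3 => ?_⟩
      obtain ⟨s, hs, hs'⟩ := h2 i (mem_range.1 hi)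
      exact hs' (h3 s (mem_filter.2 ⟨mem_univ s, hs⟩))
    · rintro ⟨⟨h1, -⟩, h2⟩
      refine ⟨h1, fun i hi => ?_⟩
      by_contra h3
      push Not at h3
      exact h2 i (mem_range.2 hi) fun x hx => h3 x (mem_filter.1 hx).2
  unfold ExB
  rw [h1, card_mset_blk B hc h subset_rfl, card_range]

theorem jx_update {K n : ℕ} (a : Fin n → ℕ) (s₀ : Fin n) (h : s₀.1 + K < n) (x : ℕ) :
    jx K n (Function.update a s₀ x) = jx K n a := by
  funext i
  rw [jx_apply (by omega), jx_apply (by omega), Function.update_of_ne]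
  intro h1
  have h2 := congrArg Fin.val h1
  have h3 : n - 1 - i.1 = s₀.1 := h2
  omega

theorem jx_zero {K n : ℕ} : jx K n (0 : Fin n → ℕ) = fun _ => 0 := by
  funext i
  unfold jx
  split_ifs <;> rfl

/-- G2. -/
theorem size_le_wtB {K : ℕ} (B : Finset (Fin K → ℕ)) (hB : Dn B) {M c n j : ℕ} (hM : 1 ≤ M)
    (hc : 0 < c) (h : j * c + K < n) {k : Kd} (hk : k.Ok M j) :
    (LSB B M c n j).size k ≤ wtW M (bJ B c) n k := by
  classical
  have hE : ∀ e : ExB B c n (2 * M - 1) j, ∑ s, e.1 s = 2 * M - 1 := fun e =>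
    (mem_Ex.1 (mem_ExB.1 e.2).1).1
  have hG : ∀ a b : Fin n → ℕ, (∀ i, a i ≤ b i) → jx K n b ∈ B → jx K n a ∈ B := fun a b hab hb =>
    hB.dn _ hb _ fun i => jx_mono hab i
  have hGE : ∀ e : ExB B c n (2 * M - 1) j, jx K n e.1 ∈ B := fun e => (mem_ExB.1 e.2).2
  have hmiss : ∀ {i : ℕ}, i < j → ∀ e : ExB B c n (2 * M - 1) j,
      ¬ ∀ x ∈ blo (blk c n) i, e.1 x = 0 := fun {i} hi e =>
    Ex_miss hi ⟨e.1, (mem_ExB.1 e.2).1⟩
  obtain ⟨s₀, hs₀v⟩ : ∃ s₀ : Fin n, s₀.1 = j * c := ⟨⟨j * c, by omega⟩, rfl⟩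
  have hs₀ : j ≤ blk c n s₀ := by
    show j ≤ s₀.1 / c
    rw [hs₀v, Nat.mul_div_cancel _ hc]
  have hu := gd_unit (LSB B M c n j) k
  have key : ∃ q : Unit → Fin n ⊕ Fin n → ℂ, q () (Sum.inl s₀) ≠ 0 ∧
      Module.finrank ℂ ((LSB B M c n j).V (fun _ : Unit => k) q) =
        (LSB B M c n j).gd fun _ : Unit => k := by
    have h1 : Gn Unit (Fin n ⊕ Fin n) fun q => q () (Sum.inl s₀) ≠ 0 :=
      ⟨X ((), Sum.inl s₀), X_ne_zero _, fun p hp => by rwa [eval_X] at hp⟩
    exact (h1.and (gn_gd (LSB B M c n j) fun _ : Unit => k)).exists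
  obtain ⟨q, hq0, hq⟩ := key
  suffices h : Fintype.card (ExB B c n (2 * M - 1) j) ≤
      Module.finrank ℂ ((LSB B M c n j).V (fun _ : Unit => k) q) + wtW M (bJ B c) n k by
    omega
  have htop : Module.finrank ℂ (⊤ : Submodule ℂ (ExB B c n (2 * M - 1) j → ℂ)) =
      Fintype.card (ExB B c n (2 * M - 1) j) := by
    rw [finrank_top, Module.finrank_fintype_fun_eq_card]
  rw [← htop]
  rcases k with ⟨μ, I⟩ | ⟨i, I⟩
  · obtain ⟨h1, h2, h3⟩ := hk
    have h4 := fat_cardG (fun e : ExB B c n (2 * M - 1) j => e.1) (fun a => jx K n a ∈ B) hG hGE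
      (2 * M - 1) μ h1 (by omega) hE (blo (blk c n)) I
      (fun k hk e => hmiss (mem_range.1 (h3 hk)) e)
      (msk (blk c n) I fun s => q () (Sum.inl s)) (fun k hk => msk_blo (blk c n) _ hk) ⊤
      ((LSB B M c n j).V (fun _ : Unit => Kd.ord μ I) q) (fun f _ hf => by
        rw [mem_LSA]
        exact fun _ => hf)
    rw [card_mset_blk B hc h.le h3] at h4
    exact h4
  · obtain ⟨h1, h2⟩ := hk
    have hiI : i ∉ I := fun h => by
      have := mem_Ico.1 (h2 h)
      omega
    have hlt : ∀ k ∈ insert i I, k < j := fun k hk => by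
      rcases mem_insert.1 hk with h | h
      · rw [h]
        exact h1
      · exact (mem_Ico.1 (h2 h)).2
    have hs₀' : ∀ k ∈ insert i I, s₀ ∉ blo (blk c n) k := fun k hk h => by
      have h3 := (mem_filter.1 h).2
      have h4 := hlt k hk
      omega
    have hne : blk c n s₀ ∉ insert i I := fun h => by
      have h4 := hlt _ h
      omega
    have h4 := sw_cardG (fun e : ExB B c n (2 * M - 1) j => e.1) (fun a => jx K n a ∈ B) hG hGE
      (2 * M - 1) M (2 * M) hM (by omega) (by omega) hE (blo (blk c n)) I i hiI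
      (fun k hk e => hmiss (hlt k hk) e)
      (msk (blk c n) (insert i I) fun s => q () (Sum.inl s))
      (msk (blk c n) I fun s => q () (Sum.inr s))
      (fun k hk => msk_blo (blk c n) _ hk) (fun k hk => msk_blo (blk c n) _ hk) s₀ hs₀'
      (fun a x ha => by
        rw [jx_update a s₀ (by omega)]
        exact ha)
      (by
        rw [jx_zero]
        exact hB.zero)
      (by
        unfold msk
        rw [if_neg hne]
        exact hq0) ⊤
      ((LSB B M c n j).V (fun _ : Unit => Kd.sw i I) q) (fun f _ hf hf' => by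
        rw [mem_LSA]
        exact fun _ => ⟨hf, hf'⟩)
    have h5 : I ⊆ range j := fun k hk => mem_range.2 (hlt k (mem_insert_of_mem hk))
    rw [card_mset_blk B hc h.le h5] at h4
    exact h4

/-- G3. The dimension is at least the virtual dimension. -/
theorem vdB_le_gMB {K : ℕ} (B : Finset (Fin K → ℕ)) (hB : Dn B) {M c n j : ℕ} (hM : 1 ≤ M)
    (hc : 0 < c) (h : j * c + K < n) (s : Multiset Kd) (hs : ∀ k ∈ s, k.Ok M j) :
    vdW M (bJ B c) j n s ≤ gM (LSB B M c n j) s := by
  induction s using Multiset.induction_on with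
  | empty =>
    rw [gM_zero, Fintype.card_coe, card_ExB B hc h.le]
    unfold vdW
    simp
  | cons k s ih =>
    have h1 := ih fun k' hk' => hs k' (Multiset.mem_cons_of_mem hk')
    have h2 := gM_le_cons (LSB B M c n j) s k
    have h3 := size_le_wtB B hB hM hc h (hs k (Multiset.mem_cons_self k s))
    unfold vdW at h1 ⊢
    rw [Multiset.map_cons, Multiset.sum_cons]
    push_cast
    push_cast at h1
    have h4 : (gM (LSB B M c n j) s : ℤ) ≤
        gM (LSB B M c n j) (k ::ₘ s) + wtW M (bJ B c) n k := by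
      exact_mod_cast h2.trans (Nat.add_le_add_left h3 _)
    linarith

end Pool.Agent.V8
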