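import Pool.Agent.V7.Cls
import Pool.Agent.V7.Top.Inp

/-!
# V8: boundedly many points of arbitrary multiplicity

The last `K` of the `n` variables are bounded: the exponents at these variables form a set `B`
closed downwards (for a point of multiplicity `m` at a coordinate point the exponent at this
variable is at most `d - m`).  Everything else is as in V7 with the weights `bJ B` instead of `bb`.
-/

set_option autoImplicit false

namespace Pool.Agent.V8

open Finset Pool.Agent.H51.TB Pool.Agent.V7 Pool.Agent.V7.ST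

/-! ### General weights -/

/-- The number of conditions of a kind, for the weights `w k j n`. -/
def wtW (M : ℕ) (w : ℕ → ℕ → ℕ → ℕ) (n : ℕ) : Kd → ℕ
  | .ord μ I => w (μ - 1) I.card n
  | .sw _ I => w (M - 1) I.card n - if I = ∅ then 1 else 0

/-- The virtual dimension of a configuration. -/
def vdW (M : ℕ) (w : ℕ → ℕ → ℕ → ℕ) (j n : ℕ) (s : Multiset Kd) : ℤ :=
  (w (2 * M - 1) j n : ℤ) - ((s.map (wtW M w n)).sum : ℕ)

/-- The virtual dimension of a system with `N τ` points of the kind `τ`. -/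
def vNW (M : ℕ) (w : ℕ → ℕ → ℕ → ℕ) (j n : ℕ) (N : Kd → ℕ) : ℤ :=
  (w (2 * M - 1) j n : ℤ) - ∑ τ ∈ kds M j, (N τ : ℤ) * (wtW M w n τ : ℤ)

/-- The properties of the weights `w k j n` (`n ≥ j c + K`). -/
structure IsW (c K : ℕ) (w : ℕ → ℕ → ℕ → ℕ) : Prop where
  vand : ∀ k j n, j * c + K ≤ n →
    w k j (n + c) = ∑ l ∈ range (k + 1), c.multichoose l * w (k - l) j n
  add : ∀ k j n, j * c + K ≤ n → w k j (n + c) = w k j n + w k (j + 1) (n + c)
  zero : ∀ k j n, j * c + K ≤ n → k < j → w k j n = 0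
  self : ∀ k n, k * c + K ≤ n → w k k n = c ^ k
  pos : ∀ k j n, 1 ≤ c → j ≤ k → j * c + K < n → 1 ≤ w k j n
  asym : ∀ k j, j ≤ k → ∃ C : ℝ, 0 < C ∧ ∀ n : ℕ, 1 ≤ n → j * c + K ≤ n →
    |(w k j n : ℝ) - (c : ℝ) ^ j / ((k - j).factorial : ℝ) * (n : ℝ) ^ (k - j)| ≤
      C / n * (n : ℝ) ^ (k - j)

/-! ### The bounded exponents -/

/-- Closed downwards, with `0`. -/
structure Dn {K : ℕ} (B : Finset (Fin K → ℕ)) : Prop where
  zero : (fun _ => 0) ∈ B
  dn : ∀ b ∈ B, ∀ b' : Fin K → ℕ, (∀ i, b' i ≤ b i) → b' ∈ B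

/-- The exponents at the last `K` of `n` variables. -/
def jx (K n : ℕ) (a : Fin n → ℕ) : Fin K → ℕ :=
  fun i => if h : i.1 < n then a ⟨n - 1 - i.1, by omega⟩ else 0

/-- The exponents of degree `d` in `n` variables which meet the blocks `0, …, j - 1` and are
in `B` at the last `K` variables. -/
def ExB {K : ℕ} (B : Finset (Fin K → ℕ)) (c n d j : ℕ) : Finset (Fin n → ℕ) :=
  (Ex (blk c n) d j).filter fun a => jx K n a ∈ B

theorem mem_ExB {K : ℕ} {B : Finset (Fin K → ℕ)} {c n d j : ℕ} {a : Fin n → ℕ} :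
    a ∈ ExB B c n d j ↔ a ∈ Ex (blk c n) d j ∧ jx K n a ∈ B := by
  unfold ExB
  rw [mem_filter]

/-- The number of monomials of degree `k` in `n` variables which meet `j` blocks of size `c` and are in
`B` at the last `K` variables (for `j c + K ≤ n`). -/
def bJ {K : ℕ} (B : Finset (Fin K → ℕ)) (c k j n : ℕ) : ℕ :=
  ∑ b ∈ B.filter (fun b => ∑ i, b i ≤ k), bb c (k - ∑ i, b i) j (n - K)

/-- The system of the level `j`. -/
noncomputable abbrev LSB {K : ℕ} (B : Finset (Fin K → ℕ)) (M c n j : ℕ) :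
    Sys {a // a ∈ ExB B c n (2 * M - 1) j} (Fin n ⊕ Fin n) Kd :=
  LSA M (blk c n) (ExB B c n (2 * M - 1) j)

/-- Exactness on the level `j`. -/
def PROPB {K : ℕ} (B : Finset (Fin K → ℕ)) (M c j : ℕ) : Prop :=
  ∃ e : ℝ, 0 < e ∧ ∃ n₀ : ℕ, ∀ n : ℕ, n₀ ≤ n → ∀ s : Multiset Kd,
    Cls M c j n e (fun τ => s.count τ) →
      (gM (LSB B M c n j) s : ℤ) ≤ max 0 (vdW M (bJ B c) j n s)

/-- Independence without points of the kind `ord M (range j)`. -/
def OJB {K : ℕ} (B : Finset (Fin K → ℕ)) (M c j : ℕ) : Prop :=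
  ∃ e : ℝ, 0 < e ∧ ∃ n₀ : ℕ, ∀ n : ℕ, n₀ ≤ n → ∀ s : Multiset Kd,
    Cls0 M c j n e (fun τ => s.count τ) → Kd.ord M (range j) ∉ s →
    (gM (LSB B M c n j) s : ℤ) ≤ vdW M (bJ B c) j n s

/-- The virtual dimension of the points which are not of the type `range k`. -/
def VASW (M c k : ℕ) (w : ℕ → ℕ → ℕ → ℕ) : Prop :=
  ∃ K : ℝ, 0 < K ∧ ∃ n₀ : ℕ, ∀ n : ℕ, n₀ ≤ n → ∀ e : ℝ, 0 ≤ e → e ≤ 1 → ∀ N : Kd → ℕ,
    Cls0 M c k n e N → N (.ord M (range k)) = 0 →
    |(vNW M w k n N : ℝ) - (c : ℝ) ^ k *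
      ((n : ℝ) ^ M / (((2 * M - 1).choose M : ℝ) * (M.factorial : ℝ)))| ≤
      (K * e + K / n) * (n : ℝ) ^ M

end Pool.Agent.V8
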