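import Pool.Agent.V8.Step
import Pool.Agent.V8.Num.IsW
import Pool.Agent.V8.Num.Vas
import Pool.Agent.V8.Room.Pc
import Pool.Agent.V8.Top.Prop
import Pool.Agent.V8.Bridge
import Pool.Agent.V7.Final

/-!
# V8, critical half: assembly

`critJ`: points of arbitrary multiplicities `J i ≤ 2 M - 1` and points of multiplicity at most `M`, of which
the `M`-fold ones carry almost all conditions, kill all forms of degree `2 M - 1` if they have enough conditions.
-/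

set_option autoImplicit false

namespace Pool.Agent.V8

open Finset Pool.Agent.H51.TB Pool.Agent.V7 Pool.Agent.V7.ST
open Pool.Agent.H18.Ex (Kind ell GM)
open Pool.Agent.H21.NX (Sx)

variable {K : ℕ}

/-- Exactness on the top level. -/
theorem prop_topB (B : Finset (Fin K → ℕ)) (hB : Dn B) (M : ℕ) (hM : 2 ≤ M) :
    ∃ c₀ L : ℕ, 1 ≤ L ∧ ∀ c, c₀ ≤ c → L ∣ c → PROPB B M c (M - 1) := by
  obtain ⟨c₁, L₁, hL₁, h₁⟩ := alpha M hM
  obtain ⟨c₂, L₂, hL₂, h₂⟩ := beta M hM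
  refine ⟨c₁ + c₂ + 2 * (2 * M - 1).choose M * M + 1, L₁ * L₂, Nat.mul_pos hL₁ hL₂,
    fun c hc hL => ?_⟩
  have hk : M - 1 + 1 = M := by omega
  have hc1 : 1 ≤ c := by omega
  exact propB_of B hB M c (M - 1) hM hk hc1
    (ojB_of B hB M c (M - 1) (by omega) (by omega) hc1
      (h₁ c (by omega) (dvd_trans (Dvd.intro _ rfl) hL) (M - 1) (by omega)))
    (GA.gamma_inp M c (M - 1) hk hM (by omega))
    (h₂ c (by omega) (dvd_trans (Dvd.intro_left _ rfl) hL))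
    (vasW M c (M - 1) hM hk hc1 (bJ B c) (isW_bJ B hB c hc1))

/-- Exactness on the level `0`. -/
theorem propB_zero (B : Finset (Fin K → ℕ)) (hB : Dn B) (M : ℕ) (hM : 2 ≤ M) :
    ∃ c, 1 ≤ c ∧ PROPB B M c 0 := by
  obtain ⟨c₁, L₁, hL₁, h₁⟩ := alpha M hM
  obtain ⟨c₂, L₂, hL₂, h₂⟩ := prop_topB B hB M hM
  obtain ⟨c, hc⟩ : ∃ c, c = L₁ * L₂ * (c₁ + c₂ + 2 * (2 * M - 1).choose M * M + 1) := ⟨_, rfl⟩
  have hpos : 1 ≤ L₁ * L₂ := Nat.mul_pos hL₁ hL₂
  have hge : c₁ + c₂ + 2 * (2 * M - 1).choose M * M + 1 ≤ c := by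
    rw [hc]
    exact Nat.le_mul_of_pos_left _ hpos
  have h1 := h₁ c (by omega) (by rw [hc, mul_assoc, mul_assoc]; exact Dvd.intro _ rfl)
  have h2 := h₂ c (by omega) (by rw [hc, mul_comm L₁ L₂, mul_assoc, mul_assoc]; exact Dvd.intro _ rfl)
  refine ⟨c, by omega, ?_⟩
  have key : ∀ i, i < M → PROPB B M c (M - 1 - i) := by
    intro i
    induction i with
    | zero => exact fun _ => h2
    | succ i ih =>
      intro hi
      refine stepB B hB M c (M - 1 - (i + 1)) (by omega) (by omega)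
        (ojB_of B hB M c _ (by omega) (by omega) (by omega) (h1 _ (by omega))) ?_
      have h3 := ih (by omega)
      rwa [show M - 1 - (i + 1) + 1 = M - 1 - i by omega]
  have h3 := key (M - 1) (by omega)
  rwa [Nat.sub_self] at h3

/-- The critical half. -/
theorem critJ (M : ℕ) (hM : 2 ≤ M) (J : Fin K → ℕ) (hJ : ∀ i, J i ≤ 2 * M - 1) :
    ∃ ε : ℝ, 0 < ε ∧ ∃ r₀ : ℕ, ∀ r, r₀ ≤ r → ∀ S : Multiset ℕ, (∀ m ∈ S, 1 ≤ m ∧ m ≤ M) →
      |((S.count M * ell r M : ℕ) : ℝ) - ((2 * M - 1 + r).choose r : ℝ)| ≤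
        ε * ((2 * M - 1 + r).choose r : ℝ) →
      ((((S.filter fun m => m < M).map (ell r)).sum : ℕ) : ℝ) ≤
        ε * ((2 * M - 1 + r).choose r : ℝ) →
      NJ (2 * M - 1) J (r + 1) (2 * M - 1) ≤
        (S.map fun m => NJ (2 * M - 1) J (r + 1) (m - 1)).sum →
      GM (Sx (Fin (r + 1)) (2 * M - 1))
        (((univ : Finset (Fin K)).val.map J).map Kind.free + S.map Kind.free) := by
  obtain ⟨c, _, h⟩ := propB_zero (BxJ (2 * M - 1) J) (dn_BxJ hJ) M hM
  exact critJ_of M c (by omega) J hJ h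

end Pool.Agent.V8
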