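import Pool.Agent.V8.ST.Step
import Pool.Agent.V8.F1
import Pool.Agent.V8.DHm
import Pool.Agent.V8.Num.IsW
import Pool.Agent.V8.Num.Ms

/-!
# V8: exactness on the level `j` from exactness on the level `j + 1`
-/

set_option autoImplicit false

namespace Pool.Agent.V8

open Finset Pool.Agent.H51.TB Pool.Agent.V7 Pool.Agent.V7.ST

variable {K : ℕ}

/-- G5 -/
theorem stepB (B : Finset (Fin K → ℕ)) (hB : Dn B) (M c j : ℕ) (hj : j + 2 ≤ M)
    (hc : 2 * (2 * M - 1).choose M * M < c)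
    (hO : OJB B M c j) (hP : PROPB B M c (j + 1)) : PROPB B M c j := by
  have hc1 : 1 ≤ c := by omega
  have hM : 1 ≤ M := by omega
  have hw := isW_bJ B hB c hc1
  exact stepB_of B M c j hj hc1 hw
    (fun n hn s hs => vdB_le_gMB B hB hM hc1 hn s hs)
    (fun n hn => size_le_wtB B hB hM hc1 hn ⟨hM, le_rfl, subset_rfl⟩)
    (fun n sL sO y a hn hL h0 => gM_dhB B M c j n hM hc1 hn sL sO y a hL h0)
    (num_msW M c j hj hc (bJ B c) hw) hO hP

end Pool.Agent.V8
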